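import Mathlib

/-!
Definitions for the question whether `F_4(C ⊕ D)` is a `k_R`-space.
-/

open Topology

universe u

namespace Pool.Agent.Lib.MP_c880a5_gt

/-- The non-trivial convergent sequence together with its limit point,
`C = {0} ∪ {1/m : m ≥ 1} ⊆ ℝ`; it is used as a type with the subspace topology. -/
def convSeq : Set ℝ := {x | x = 0 ∨ ∃ m : ℕ, 1 ≤ m ∧ x = 1 / (m : ℝ)}

/-- `IsFreeTopologicalGroup i` says that the group `F` with its topology, together with the map
`i : X → F`, is the free topological group (in the sense of Markov) on the space `X`:
`F` is a Hausdorff topological group, `i` embeds `X` as a subspace of `F`, the image of `X`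
generates `F` algebraically, and every continuous map from `X` to a topological group `G`
extends to a continuous homomorphism `F → G`. -/
structure IsFreeTopologicalGroup {X F : Type u} [TopologicalSpace X] [Group F]
    [TopologicalSpace F] (i : X → F) : Prop where
  /-- `F` is a topological group. -/
  isTopologicalGroup : IsTopologicalGroup F
  /-- `F` is Hausdorff. -/
  t2 : T2Space F
  /-- `X` is a subspace of `F` via `i`. -/
  isEmbedding : IsEmbedding i
  /-- `X` generates the group `F`. -/
  closure_range : Subgroup.closure (Set.range i) = ⊤
  /-- Continuous maps from `X` to a topological group extend to continuous homomorphisms. -/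
  exists_extension : ∀ (G : Type u) [Group G] [TopologicalSpace G] [IsTopologicalGroup G]
    (f : X → G), Continuous f → ∃ φ : F →* G, Continuous φ ∧ ∀ x, φ (i x) = f x

/-- `wordsLE i n` is `F_n(X)`: the set of all elements of `F` which are products of at most `n`
letters from `X ∪ X⁻¹` (equivalently, words of reduced length at most `n`).
As a type it carries the subspace topology from `F`. -/
def wordsLE {X F : Type u} [Group F] (i : X → F) (n : ℕ) : Set F :=
  {w | ∃ L : List F, L.length ≤ n ∧ (∀ a ∈ L, a ∈ Set.range i ∨ a⁻¹ ∈ Set.range i) ∧ L.prod = w}

/-- `k_R`-spaces: Tychonoff spaces `Y` for which every real-valued function which is continuous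
on each compact subset of `Y` is continuous. -/
def IsKRSpace (Y : Type u) [TopologicalSpace Y] : Prop :=
  T35Space Y ∧ ∀ f : Y → ℝ, (∀ K : Set Y, IsCompact K → ContinuousOn f K) → Continuous f

end Pool.Agent.Lib.MP_c880a5_gt
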