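import Mathlib
import Pool.Agent.Lib.MP_c880a5_gt.Defs

/-!
Proof that `F_4(C ⊕ D)` is a `k_R`-space for every discrete `D`, and existence of the free
topological group on `C ⊕ D`.
-/

open FreeGroup Topology Filter

universe u

namespace Pool.Agent.Lib.MP_c880a5_gt

variable {D : Type u} [TopologicalSpace D] {F : Type u} [Group F] [TopologicalSpace F]
  {i : convSeq ⊕ D → F}

theorem exists_kappa (h : IsFreeTopologicalGroup i) :
    ∃ κ : F →* FreeGroup (convSeq ⊕ D), ∀ x, κ (i x) = FreeGroup.of x := by
  let : TopologicalSpace (FreeGroup (convSeq ⊕ D)) := ⊤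
  have : IsTopologicalGroup (FreeGroup (convSeq ⊕ D)) :=
    { continuous_mul := continuous_top, continuous_inv := continuous_top }
  obtain ⟨φ, _, hφ⟩ := h.exists_extension (FreeGroup (convSeq ⊕ D)) FreeGroup.of continuous_top
  exact ⟨φ, hφ⟩

theorem hom_ext (h : IsFreeTopologicalGroup i) {G : Type*} [Group G] {φ ψ : F →* G}
    (hφψ : ∀ x, φ (i x) = ψ (i x)) : φ = ψ := by
  apply MonoidHom.eq_of_eqOn_dense h.closure_range
  rintro _ ⟨x, rfl⟩
  exact hφψ x

theorem lift_kappa (h : IsFreeTopologicalGroup i) {κ : F →* FreeGroup (convSeq ⊕ D)}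
    (hκ : ∀ x, κ (i x) = FreeGroup.of x) (w : F) : FreeGroup.lift i (κ w) = w := by
  have : (FreeGroup.lift i).comp κ = MonoidHom.id F := hom_ext h (by intro x; simp [hκ])
  exact DFunLike.congr_fun this w

theorem exists_locconst [DiscreteTopology D] (h : IsFreeTopologicalGroup i)
    {κ : F →* FreeGroup (convSeq ⊕ D)}
    (hκ : ∀ x, κ (i x) = FreeGroup.of x) (ρ : convSeq → convSeq) (hρ : IsLocallyConstant ρ)
    (γ : FreeGroup (convSeq ⊕ D)) :
    IsOpen {w : F | FreeGroup.map (Sum.map ρ id) (κ w) = γ} := by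
  let : TopologicalSpace (FreeGroup (convSeq ⊕ D)) := ⊥
  have : DiscreteTopology (FreeGroup (convSeq ⊕ D)) := ⟨rfl⟩
  have : IsTopologicalGroup (FreeGroup (convSeq ⊕ D)) :=
    { continuous_mul := continuous_of_discreteTopology,
      continuous_inv := continuous_of_discreteTopology }
  obtain ⟨φ, hφc, hφ⟩ := h.exists_extension (FreeGroup (convSeq ⊕ D))
    (fun x => FreeGroup.of (Sum.map ρ id x)) (by
      apply continuous_sum_dom.2
      constructor
      · have : IsLocallyConstant (fun c => FreeGroup.of (Sum.inl (ρ c) : convSeq ⊕ D)) :=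
          hρ.comp (fun c => FreeGroup.of (Sum.inl c : convSeq ⊕ D))
        exact this.continuous
      · exact continuous_of_discreteTopology)
  have : φ = (FreeGroup.map (Sum.map ρ id)).comp κ := hom_ext h (by intro x; simp [hκ, hφ])
  subst this
  exact (isOpen_discrete {γ}).preimage hφc


/-- translation matrix -/
def tr (x : ℝ) : (Matrix (Fin 2) (Fin 2) ℝ)ˣ where
  val := !![1, x; 0, 1]
  inv := !![1, -x; 0, 1]
  val_inv := by simp [Matrix.one_fin_two]
  inv_val := by simp [Matrix.one_fin_two]

/-- scaling matrix -/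
noncomputable def sc (l : ℝ) (hl : 0 < l) : (Matrix (Fin 2) (Fin 2) ℝ)ˣ where
  val := !![l, 0; 0, 1]
  inv := !![l⁻¹, 0; 0, 1]
  val_inv := by simp [Matrix.one_fin_two, hl.ne']
  inv_val := by simp [Matrix.one_fin_two, hl.ne']

theorem continuous_tr : Continuous (fun c : convSeq => tr c.1) := by
  rw [Units.continuous_iff]
  constructor
  · refine continuous_matrix fun i j => ?_
    fin_cases i <;> fin_cases j <;> simp [tr] <;> fun_prop
  · refine continuous_matrix fun i j => ?_
    fin_cases i <;> fin_cases j <;> simp [tr] <;> fun_prop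

theorem exists_theta [DiscreteTopology D] (h : IsFreeTopologicalGroup i)
    (l : D → ℝ) (hl : ∀ d, 0 < l d) :
    ∃ θ : F →* (Matrix (Fin 2) (Fin 2) ℝ)ˣ, Continuous θ ∧ (∀ c, θ (i (Sum.inl c)) = tr c.1) ∧
      (∀ d, θ (i (Sum.inr d)) = sc (l d) (hl d)) := by
  obtain ⟨φ, hφc, hφ⟩ := h.exists_extension (ULift.{u} (Matrix (Fin 2) (Fin 2) ℝ)ˣ)
    (fun x => ULift.up (Sum.elim (fun c => tr c.1) (fun d => sc (l d) (hl d)) x)) (by
      refine continuous_uliftUp.comp ?_
      apply continuous_sum_dom.2
      constructor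
      · exact continuous_tr
      · exact continuous_of_discreteTopology)
  refine ⟨{ toFun := fun w => (φ w).down, map_one' := by simp, map_mul' := by simp },
    continuous_uliftDown.comp hφc, ?_, ?_⟩
  · intro c
    have := hφ (Sum.inl c)
    simp [this]
  · intro d
    have := hφ (Sum.inr d)
    simp [this]

theorem isCompact_convSeq : IsCompact convSeq := by
  have h1 : Tendsto (fun n : ℕ => 1 / ((n : ℝ) + 1)) atTop (𝓝 0) :=
    tendsto_one_div_add_atTop_nhds_zero_nat
  have h2 := h1.isCompact_insert_range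
  have h3 : convSeq = insert 0 (Set.range (fun n : ℕ => 1 / ((n : ℝ) + 1))) := by
    ext x
    simp only [convSeq, Set.mem_ofPred_eq, Set.mem_insert_iff, Set.mem_range]
    constructor
    · rintro (h | ⟨m, hm, rfl⟩)
      · exact Or.inl h
      · obtain ⟨k, rfl⟩ := Nat.exists_eq_add_of_le' hm
        exact Or.inr ⟨k, by push_cast; rfl⟩
    · rintro (h | ⟨k, rfl⟩)
      · exact Or.inl h
      · exact Or.inr ⟨k + 1, by omega, by push_cast; rfl⟩
  rw [h3]
  exact h2

instance : CompactSpace convSeq := isCompact_iff_compactSpace.1 isCompact_convSeq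

/-- letters over a subset E of D -/
def lett (i : convSeq ⊕ D → F) (E : Set D) : Set F :=
  {1} ∪ (i '' (Sum.inl '' Set.univ ∪ Sum.inr '' E) ∪ (i '' (Sum.inl '' Set.univ ∪ Sum.inr '' E))⁻¹)

open Pointwise in
/-- compact set of words. -/
def KE (i : convSeq ⊕ D → F) (E : Set D) : Set F := lett i E * lett i E * lett i E * lett i E

theorem isCompact_lett [DiscreteTopology D] (h : IsFreeTopologicalGroup i) {E : Set D} (hE : E.Finite) :
    IsCompact (lett i E) := by
  have := h.isTopologicalGroup
  have h1 : IsCompact (Sum.inl '' Set.univ ∪ Sum.inr '' E : Set (convSeq ⊕ D)) :=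
    (isCompact_univ.image continuous_inl).union ((hE.image _).isCompact)
  have h2 := h1.image h.isEmbedding.continuous
  exact isCompact_singleton.union (h2.union h2.inv)

theorem isCompact_KE [DiscreteTopology D] (h : IsFreeTopologicalGroup i) {E : Set D} (hE : E.Finite) :
    IsCompact (KE i E) := by
  have := h.isTopologicalGroup
  have h1 := isCompact_lett h hE
  exact ((h1.mul h1).mul h1).mul h1

theorem wordsLE_mul {i : convSeq ⊕ D → F} {m n : ℕ} {a b : F} (ha : a ∈ wordsLE i m) (hb : b ∈ wordsLE i n) :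
    a * b ∈ wordsLE i (m + n) := by
  obtain ⟨L, hL, hLm, rfl⟩ := ha
  obtain ⟨M, hM, hMm, rfl⟩ := hb
  refine ⟨L ++ M, by simp; omega, ?_, by simp⟩
  intro x hx
  rcases List.mem_append.1 hx with hx | hx
  · exact hLm x hx
  · exact hMm x hx

theorem lett_subset {i : convSeq ⊕ D → F} (E : Set D) : lett i E ⊆ wordsLE i 1 := by
  rintro a (ha | ha | ha)
  · exact ⟨[], by simp, by simp, by simpa using ha.symm⟩
  · refine ⟨[a], by simp, ?_, by simp⟩
    simp only [List.mem_singleton, forall_eq]
    exact Or.inl (Set.image_subset_range _ _ ha)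
  · refine ⟨[a], by simp, ?_, by simp⟩
    simp only [List.mem_singleton, forall_eq]
    exact Or.inr (Set.image_subset_range _ _ ha)

theorem KE_subset {i : convSeq ⊕ D → F} (E : Set D) : KE i E ⊆ wordsLE i 4 := by
  rintro _ ⟨_, ⟨_, ⟨a, ha, b, hb, rfl⟩, c, hc, rfl⟩, d, hd, rfl⟩
  exact wordsLE_mul (wordsLE_mul (wordsLE_mul (lett_subset E ha) (lett_subset E hb)) (lett_subset E hc))
    (lett_subset E hd)


theorem star {A D : Type*} [DecidableEq (A ⊕ D)] (ρ : A → A) (L : List ((A ⊕ D) × Bool))
    (hred : FreeGroup.IsReduced L) (hlen : L.length ≤ 4) :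
    ((∀ d b, ((Sum.inr d, b) : (A ⊕ D) × Bool) ∈ L →
        ((Sum.inr d, b) : (A ⊕ D) × Bool) ∈ reduce (L.map fun p => (Sum.map ρ id p.1, p.2))) ∨
    (∃ d b u v s, L = [(Sum.inr d, b), (Sum.inl u, s), (Sum.inl v, !s), (Sum.inr d, !b)])) := by
  by_cases h : FreeGroup.IsReduced (L.map fun p => ((Sum.map ρ id p.1 : A ⊕ D), p.2))
  · left
    intro d b hdb
    rw [h.reduce_eq, List.mem_map]
    exact ⟨_, hdb, rfl⟩
  · rw [FreeGroup.IsReduced, List.isChain_iff_forall_rel_of_append_cons_cons] at h
    push Not at h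
    obtain ⟨p', q', A', B', hL, h1, h2⟩ := h
    obtain ⟨A0, R, rfl, hA, hR⟩ := List.map_eq_append_iff.1 hL
    obtain ⟨p, R2, rfl, hp, hR2⟩ := List.map_eq_cons_iff.1 hR
    obtain ⟨q, B0, rfl, hq, hB⟩ := List.map_eq_cons_iff.1 hR2
    obtain ⟨p1, p2⟩ := p
    obtain ⟨q1, q2⟩ := q
    subst hp hq hA hB
    simp only at h1 h2
    have hpq : q2 = !p2 := by cases p2 <;> cases q2 <;> simp_all
    subst hpq
    have hred' : reduce ((A0 ++ (p1, p2) :: (q1, !p2) :: B0).map fun p => ((Sum.map ρ id p.1 : A ⊕ D), p.2)) =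
        reduce ((A0 ++ B0).map fun p => ((Sum.map ρ id p.1 : A ⊕ D), p.2)) := by
      rw [List.map_append, List.map_cons, List.map_cons, List.map_append]
      simp only
      rw [h1]
      exact reduce.Step.eq (Red.Step.not (b := p2))
    rw [hred']
    have hadj : p1 ≠ q1 := by
      intro hpq
      subst hpq
      have := (List.isChain_iff_forall_rel_of_append_cons_cons.1 hred)
      have := this (a := (p1, p2)) (b := (p1, !p2)) (l₁ := A0) (l₂ := B0) rfl rfl
      simp at this
    obtain ⟨u, rfl⟩ : ∃ u, p1 = Sum.inl u := by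
      rcases p1 with p1 | p1 <;> rcases q1 with q1 | q1 <;> simp_all
    obtain ⟨v, rfl⟩ : ∃ u, q1 = Sum.inl u := by
      rcases q1 with q1 | q1 <;> simp_all
    simp only [List.length_append, List.length_cons] at hlen
    match A0, B0, hred, hlen with
    | [], [], _, _ => simp
    | [(a, b)], [], _, _ => rcases a with a | a <;> simp [reduce]
    | [], [(a, b)], _, _ => rcases a with a | a <;> simp [reduce]
    | [(a, b), (a', b')], [], hr, _ =>
      simp only [List.cons_append, List.nil_append, isReduced_cons_cons] at hr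
      rcases a with a | a <;> rcases a' with a' | a' <;> cases b <;> cases b' <;> simp_all [reduce] <;> grind
    | [], [(a, b), (a', b')], hr, _ =>
      simp only [List.cons_append, List.nil_append, isReduced_cons_cons] at hr
      rcases a with a | a <;> rcases a' with a' | a' <;> cases b <;> cases b' <;> simp_all [reduce] <;> grind
    | [(a, b)], [(a', b')], hr, _ =>
      simp only [List.cons_append, List.nil_append, isReduced_cons_cons] at hr
      rcases a with a | a <;> rcases a' with a' | a' <;> cases b <;> cases b' <;> simp_all [reduce] <;> grind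
    | _ :: _ :: _, _ :: _, _, h => simp at h; omega
    | _ :: _, _ :: _ :: _, _, h => simp at h; omega
    | _ :: _ :: _ :: _, _, _, h => simp at h; omega
    | _, _ :: _ :: _ :: _, _, h => simp at h; omega


section
open Classical

theorem norm_kappa_le {κ : F →* FreeGroup (convSeq ⊕ D)}
    (hκ : ∀ x, κ (i x) = FreeGroup.of x) {n : ℕ} {w : F} (hw : w ∈ wordsLE i n) :
    (κ w).norm ≤ n := by
  obtain ⟨L, hL, hLm, rfl⟩ := hw
  refine le_trans ?_ hL
  clear hL
  induction L with
  | nil => simp
  | cons a L ih =>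
    rw [List.prod_cons, _root_.map_mul, List.length_cons, add_comm]
    refine (FreeGroup.norm_mul_le _ _).trans ?_
    have h1 := ih (fun x hx => hLm x (List.mem_cons_of_mem _ hx))
    have h2 : (κ a).norm = 1 := by
      rcases hLm a (List.mem_cons_self) with ⟨x, hx⟩ | ⟨x, hx⟩
      · rw [← hx, hκ, FreeGroup.norm_of]
      · have : κ a = (FreeGroup.of x)⁻¹ := by
          rw [← hκ, hx, _root_.map_inv, inv_inv]
        rw [this, FreeGroup.norm_inv_eq, FreeGroup.norm_of]
    omega

open Pointwise in
theorem prod_mem_KE {E : Set D} {L : List F} (hL : L.length ≤ 4) (h : ∀ a ∈ L, a ∈ lett i E) :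
    L.prod ∈ KE i E := by
  have h1 : (1 : F) ∈ lett i E := Or.inl rfl
  match L, hL, h with
  | [], _, _ => exact ⟨_, ⟨_, ⟨1, h1, 1, h1, rfl⟩, 1, h1, rfl⟩, 1, h1, by simp⟩
  | [a], _, h => exact ⟨_, ⟨_, ⟨a, h a (by simp), 1, h1, rfl⟩, 1, h1, rfl⟩, 1, h1, by simp⟩
  | [a, b], _, h =>
    exact ⟨_, ⟨_, ⟨a, h a (by simp), b, h b (by simp), rfl⟩, 1, h1, rfl⟩, 1, h1, by simp⟩
  | [a, b, c], _, h =>
    exact ⟨_, ⟨_, ⟨a, h a (by simp), b, h b (by simp), rfl⟩, c, h c (by simp), rfl⟩, 1, h1,
      by simp [mul_assoc]⟩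
  | [a, b, c, d], _, h =>
    exact ⟨_, ⟨_, ⟨a, h a (by simp), b, h b (by simp), rfl⟩, c, h c (by simp), rfl⟩, d,
      h d (by simp), by simp [mul_assoc]⟩

theorem mem_KE_of_letters (h : IsFreeTopologicalGroup i) {κ : F →* FreeGroup (convSeq ⊕ D)}
    (hκ : ∀ x, κ (i x) = FreeGroup.of x) {E : Set D} {w : F} (hw : (κ w).norm ≤ 4)
    (hE : ∀ d b, ((Sum.inr d, b) : (convSeq ⊕ D) × Bool) ∈ (κ w).toWord → d ∈ E) :
    w ∈ KE i E := by
  have h1 : w = ((κ w).toWord.map fun p => cond p.2 (i p.1) (i p.1)⁻¹).prod := by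
    conv_lhs => rw [← lift_kappa h hκ w, ← FreeGroup.mk_toWord (x := κ w)]
    rw [FreeGroup.lift_mk]
  rw [h1]
  apply prod_mem_KE
  · rw [List.length_map]; exact hw
  · intro a ha
    obtain ⟨⟨x, b⟩, hp, rfl⟩ := List.mem_map.1 ha
    have hx : x ∈ (Sum.inl '' Set.univ ∪ Sum.inr '' E : Set (convSeq ⊕ D)) := by
      rcases x with x | x
      · exact Or.inl ⟨x, trivial, rfl⟩
      · exact Or.inr ⟨x, hE x b hp, rfl⟩
    right
    cases b
    · right
      simp only [cond_false, Set.mem_inv, inv_inv]
      exact ⟨x, hx, rfl⟩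
    · left
      exact ⟨x, hx, rfl⟩


theorem isOpen_isolated (m : ℕ) (hm : 1 ≤ m) : IsOpen {c : convSeq | (c : ℝ) = 1 / (m : ℝ)} := by
  have h : {c : convSeq | (c : ℝ) = 1 / (m : ℝ)} =
      {c : convSeq | 1 < (c : ℝ) * (m + 1 / 2)} ∩ {c : convSeq | (c : ℝ) * (m - 1 / 2) < 1} := by
    ext ⟨c, hc⟩
    have hm' : (1 : ℝ) ≤ m := by exact_mod_cast hm
    simp only [Set.mem_ofPred_eq, Set.mem_inter_iff]
    constructor
    · intro h
      rw [h]
      constructor
      · rw [div_mul_eq_mul_div, one_mul, lt_div_iff₀ (by linarith)]; linarith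
      · rw [div_mul_eq_mul_div, one_mul, div_lt_iff₀ (by linarith)]; linarith
    · rintro ⟨h1, h2⟩
      rcases hc with rfl | ⟨n, hn, rfl⟩
      · norm_num at h1
      · have hn' : (1 : ℝ) ≤ n := by exact_mod_cast hn
        rw [div_mul_eq_mul_div, one_mul, lt_div_iff₀ (by linarith)] at h1
        rw [div_mul_eq_mul_div, one_mul, div_lt_iff₀ (by linarith)] at h2
        have h3 : n < m + 1 := by
          have : (n : ℝ) < m + 1 := by linarith
          exact_mod_cast this
        have h4 : m < n + 1 := by
          have : (m : ℝ) < n + 1 := by linarith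
          exact_mod_cast this
        have : n = m := by omega
        rw [this]
  rw [h]
  apply IsOpen.inter
  · exact isOpen_lt continuous_const (by fun_prop)
  · exact isOpen_lt (by fun_prop) continuous_const

/-- truncation of the convergent sequence. -/
noncomputable def trunc (t : ℝ) (c : convSeq) : convSeq :=
  if (c : ℝ) < t then ⟨0, Or.inl rfl⟩ else c

theorem isLocallyConstant_trunc {t : ℝ} (ht : 0 < t) : IsLocallyConstant (trunc t) := by
  rw [IsLocallyConstant.iff_exists_open]
  intro c
  by_cases hc : (c : ℝ) < t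
  · refine ⟨{c | (c : ℝ) < t}, isOpen_lt continuous_subtype_val continuous_const, hc, ?_⟩
    intro c' hc'
    have hc'' : (c' : ℝ) < t := hc'
    simp [trunc, hc, hc'']
  · obtain ⟨c, h0 | ⟨m, hm, hcm⟩⟩ := c
    · exact absurd (h0.trans_lt ht) hc
    · refine ⟨_, isOpen_isolated m hm, hcm, ?_⟩
      rintro c' hc'
      congr 1
      apply Subtype.ext
      exact Eq.trans hc' hcm.symm

theorem exists_threshold (L : List ((convSeq ⊕ D) × Bool)) :
    ∃ t : ℝ, 0 < t ∧ ∀ p ∈ L, (Sum.map (trunc t) id p.1, p.2) = p := by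
  have : ∃ t : ℝ, 0 < t ∧ ∀ c : convSeq, ∀ b, ((Sum.inl c, b) : (convSeq ⊕ D) × Bool) ∈ L →
      (c : ℝ) ≠ 0 → t ≤ c := by
    induction L with
    | nil => exact ⟨1, one_pos, by simp⟩
    | cons p L ih =>
      obtain ⟨t, ht, hL⟩ := ih
      obtain ⟨x, b⟩ := p
      rcases x with c | d
      · by_cases hc : (c : ℝ) = 0
        · refine ⟨t, ht, ?_⟩
          intro c' b' hc' h0
          rcases List.mem_cons.1 hc' with h | h
          · have : c' = c := by simpa using congrArg Prod.fst h
            rw [this] at h0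
            exact absurd hc h0
          · exact hL c' b' h h0
        · have hcpos : 0 < (c : ℝ) := by
            rcases c.2 with h | ⟨m, hm, h⟩
            · exact absurd h hc
            · rw [h]
              have : (1 : ℝ) ≤ m := by exact_mod_cast hm
              positivity
          refine ⟨min t c, lt_min ht hcpos, ?_⟩
          intro c' b' hc' h0
          rcases List.mem_cons.1 hc' with h | h
          · have : c' = c := by simpa using congrArg Prod.fst h
            rw [this]
            exact min_le_right _ _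
          · exact (min_le_left _ _).trans (hL c' b' h h0)
      · refine ⟨t, ht, ?_⟩
        intro c' b' hc' h0
        rcases List.mem_cons.1 hc' with h | h
        · simp at h
        · exact hL c' b' h h0
  obtain ⟨t, ht, h⟩ := this
  refine ⟨t, ht, ?_⟩
  rintro ⟨c | d, b⟩ hp
  · have : trunc t c = c := by
      unfold trunc
      split_ifs with h1
      · by_cases hc : (c : ℝ) = 0
        · exact Subtype.ext hc.symm
        · exact absurd h1 (not_lt.2 (h c b hp hc))
      · rfl
    simp [this]
  · simp


/-- the word `h x^s y^{-s} h⁻¹`, with `h = d^{±1}`. -/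
def ew (i : convSeq ⊕ D → F) (d : D) (b s : Bool) (p : convSeq × convSeq) : F :=
  (cond b (i (Sum.inr d)) (i (Sum.inr d))⁻¹) * (cond s (i (Sum.inl p.1)) (i (Sum.inl p.1))⁻¹) *
    (cond s (i (Sum.inl p.2)) (i (Sum.inl p.2))⁻¹)⁻¹ * (cond b (i (Sum.inr d)) (i (Sum.inr d))⁻¹)⁻¹

theorem ew_mem (d : D) (b s : Bool) (p : convSeq × convSeq) : ew i d b s p ∈ wordsLE i 4 := by
  refine ⟨[cond b (i (Sum.inr d)) (i (Sum.inr d))⁻¹, cond s (i (Sum.inl p.1)) (i (Sum.inl p.1))⁻¹,
    (cond s (i (Sum.inl p.2)) (i (Sum.inl p.2))⁻¹)⁻¹, (cond b (i (Sum.inr d)) (i (Sum.inr d))⁻¹)⁻¹],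
    by simp, ?_, by simp [ew, mul_assoc]⟩
  have key : ∀ (x : convSeq ⊕ D) (b : Bool),
      cond b (i x) (i x)⁻¹ ∈ Set.range i ∨ (cond b (i x) (i x)⁻¹)⁻¹ ∈ Set.range i := by
    intro x b
    cases b
    · right; exact ⟨x, by simp⟩
    · left; exact ⟨x, by simp⟩
  intro a ha
  simp only [List.mem_cons, List.not_mem_nil, or_false] at ha
  rcases ha with rfl | rfl | rfl | rfl
  · exact key _ _
  · exact key _ _
  · rw [inv_inv]; exact (key _ _).symm
  · rw [inv_inv]; exact (key _ _).symm

theorem ew_self (d : D) (b s : Bool) (x : convSeq) : ew i d b s (x, x) = 1 := by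
  simp [ew]

theorem continuous_ew (h : IsFreeTopologicalGroup i) (d : D) (b s : Bool) :
    Continuous (ew i d b s) := by
  have := h.isTopologicalGroup
  have hi := h.isEmbedding.continuous
  have h1 : Continuous (fun p : convSeq × convSeq => i (Sum.inl p.1)) :=
    hi.comp (continuous_inl.comp continuous_fst)
  have h2 : Continuous (fun p : convSeq × convSeq => i (Sum.inl p.2)) :=
    hi.comp (continuous_inl.comp continuous_snd)
  unfold ew
  cases b <;> cases s <;> simp only [cond_true, cond_false] <;> fun_prop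

theorem theta_ew {l : D → ℝ} {hl : ∀ d, 0 < l d} {θ : F →* (Matrix (Fin 2) (Fin 2) ℝ)ˣ}
    (h1 : ∀ c, θ (i (Sum.inl c)) = tr c.1) (h2 : ∀ d, θ (i (Sum.inr d)) = sc (l d) (hl d))
    (d : D) (b s : Bool) (p : convSeq × convSeq) :
    |(θ (ew i d b s p)).val 0 1| = (cond b (l d) (l d)⁻¹) * |(p.1 : ℝ) - p.2| := by
  have e1 : ∀ (l : ℝ) (hl : 0 < l), ((sc l hl)⁻¹ : (Matrix (Fin 2) (Fin 2) ℝ)ˣ).val = !![l⁻¹, 0; 0, 1] :=
    fun _ _ => rfl
  have e2 : ∀ (l : ℝ) (hl : 0 < l), (sc l hl).val = !![l, 0; 0, 1] := fun _ _ => rfl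
  have e3 : ∀ (x : ℝ), ((tr x)⁻¹ : (Matrix (Fin 2) (Fin 2) ℝ)ˣ).val = !![1, -x; 0, 1] := fun _ => rfl
  have e4 : ∀ (x : ℝ), (tr x).val = !![1, x; 0, 1] := fun _ => rfl
  have hl' := hl d
  cases b <;> cases s <;>
    simp only [ew, cond_true, cond_false, _root_.map_mul, _root_.map_inv, inv_inv, h1, h2,
      Units.val_mul, e1, e2, e3, e4, Matrix.mul_fin_two]
  · have : (l d)⁻¹ * |(p.1 : ℝ) - p.2| = |(l d)⁻¹ * ((p.2 : ℝ) - p.1)| := by
      rw [abs_mul, abs_of_pos (inv_pos.2 hl'), abs_sub_comm]
    rw [this]; congr 1; simp; ring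
  · have : (l d)⁻¹ * |(p.1 : ℝ) - p.2| = |(l d)⁻¹ * ((p.1 : ℝ) - p.2)| := by
      rw [abs_mul, abs_of_pos (inv_pos.2 hl')]
    rw [this]; congr 1; simp; ring
  · have : (l d) * |(p.1 : ℝ) - p.2| = |(l d) * ((p.2 : ℝ) - p.1)| := by
      rw [abs_mul, abs_of_pos hl', abs_sub_comm]
    rw [this]; congr 1; simp; ring
  · have : (l d) * |(p.1 : ℝ) - p.2| = |(l d) * ((p.1 : ℝ) - p.2)| := by
      rw [abs_mul, abs_of_pos hl']
    rw [this]; congr 1; simp; ring

theorem continuous_of_kR [DiscreteTopology D] (h : IsFreeTopologicalGroup i)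
    (f : wordsLE i 4 → ℝ) (hf : ∀ K : Set (wordsLE i 4), IsCompact K → ContinuousOn f K) :
    Continuous f := by
  obtain ⟨κ, hκ⟩ := exists_kappa h
  have hT := h.isTopologicalGroup
  have compK : ∀ E : Set D, E.Finite →
      IsCompact (Subtype.val ⁻¹' (KE i E) : Set (wordsLE i 4)) := by
    intro E hE
    rw [Subtype.isCompact_iff, Subtype.image_preimage_val, Set.inter_eq_right.2 (KE_subset E)]
    exact isCompact_KE h hE
  have hlift := lift_kappa h hκ
  rw [continuous_iff_continuousAt]
  intro w0
  by_cases hw0 : κ w0 = 1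
  · have hw01 : (w0 : F) = 1 := by rw [← hlift w0, hw0, _root_.map_one]
    -- uniform continuity
    have hδ : ∀ ε > 0, ∀ (d : D) (b s : Bool), ∃ δ > 0, ∀ p : convSeq × convSeq,
        |(p.1 : ℝ) - p.2| < δ → |f ⟨ew i d b s p, ew_mem d b s p⟩ - f w0| < ε := by
      intro ε hε d b s
      have hc : Continuous (fun p => (⟨ew i d b s p, ew_mem d b s p⟩ : wordsLE i 4)) :=
        (continuous_ew h d b s).subtype_mk _
      have hg : Continuous (fun p => f ⟨ew i d b s p, ew_mem d b s p⟩) :=
        (hf _ (isCompact_range hc)).comp_continuous hc (fun p => ⟨p, rfl⟩)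
      have hu := CompactSpace.uniformContinuous_of_continuous hg
      rw [Metric.uniformContinuous_iff] at hu
      obtain ⟨δ, hδ, hu⟩ := hu ε hε
      refine ⟨δ, hδ, ?_⟩
      rintro ⟨x, y⟩ hp
      have := @hu (x, y) (x, x) (by
        rw [Prod.dist_eq]
        simp only [dist_self]
        rw [max_lt_iff]
        refine ⟨hδ, ?_⟩
        rw [Subtype.dist_eq, Real.dist_eq, abs_sub_comm]
        exact hp)
      rw [Real.dist_eq] at this
      convert this using 4
      apply Subtype.ext
      rw [hw01]
      exact (ew_self d b s x).symm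
    rw [Metric.continuousAt_iff']
    intro ε hε
    choose δ hδpos hδ using hδ ε hε
    let δ' : D → Bool → ℝ := fun d b => min (δ d b true) (δ d b false)
    have hδ'pos : ∀ d b, 0 < δ' d b := fun d b => lt_min (hδpos _ _ _) (hδpos _ _ _)
    have hδ' : ∀ d b s, δ' d b ≤ δ d b s := by
      intro d b s
      cases s
      · exact min_le_right _ _
      · exact min_le_left _ _
    obtain ⟨θ1, hθ1c, hθ1C, hθ1D⟩ := exists_theta h (fun d => (δ' d true)⁻¹)
      (fun d => inv_pos.2 (hδ'pos d true))
    obtain ⟨θ2, hθ2c, hθ2C, hθ2D⟩ := exists_theta h (fun d => δ' d false)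
      (fun d => hδ'pos d false)
    have ent : ∀ {θ : F →* (Matrix (Fin 2) (Fin 2) ℝ)ˣ}, Continuous θ →
        ∀ᶠ w : wordsLE i 4 in 𝓝 w0, |(θ w).val 0 1| < 1 := by
      intro θ hθ
      have hc : Continuous (fun w : wordsLE i 4 => |(θ w).val 0 1|) := by
        have := Units.continuous_val.comp (hθ.comp (continuous_subtype_val (p := (· ∈ wordsLE i 4))))
        exact (this.matrix_elem 0 1).abs
      apply hc.continuousAt.eventually_lt continuousAt_const
      rw [hw01]
      simp
    have hN1 := ent hθ1c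
    have hN2 := ent hθ2c
    have hN3 : ∀ᶠ w : wordsLE i 4 in 𝓝 w0,
        FreeGroup.map (Sum.map (trunc 2) id) (κ w) = (1 : FreeGroup (convSeq ⊕ D)) := by
      have hopen := exists_locconst h hκ (trunc 2) (isLocallyConstant_trunc two_pos) 1
      exact (hopen.preimage continuous_subtype_val).mem_nhds (by simp [hw0])
    have hN4 : ∀ᶠ w : wordsLE i 4 in 𝓝 w0, w ∈ (Subtype.val ⁻¹' (KE i ∅) : Set (wordsLE i 4)) →
        dist (f w) (f w0) < ε := by
      have h1 := hf _ (compK ∅ Set.finite_empty) w0 (by
        show (w0 : F) ∈ KE i ∅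
        apply mem_KE_of_letters h hκ
        · rw [hw0]; simp
        · rw [hw0]; simp)
      rw [Metric.continuousWithinAt_iff'] at h1
      exact eventually_nhdsWithin_iff.1 (h1 ε hε)
    filter_upwards [hN1, hN2, hN3, hN4] with w h1 h2 h3 h4
    have hnorm : (κ w).norm ≤ 4 := norm_kappa_le hκ w.2
    rcases star (trunc 2) (κ w).toWord FreeGroup.isReduced_toWord hnorm with hs | ⟨d, b, u, v, s, hs⟩
    · apply h4
      apply mem_KE_of_letters h hκ hnorm
      intro d b hdb
      have := hs d b hdb
      have h5 : reduce ((κ w).toWord.map fun p => (Sum.map (trunc 2) id p.1, p.2)) = [] := by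
        rw [← FreeGroup.toWord_mk, ← FreeGroup.map.mk, FreeGroup.mk_toWord, h3, FreeGroup.toWord_one]
      rw [h5] at this
      simp at this
    · have hw : w = ⟨ew i d b s (u, v), ew_mem d b s (u, v)⟩ := by
        apply Subtype.ext
        rw [← hlift w, ← FreeGroup.mk_toWord (x := κ w), hs, FreeGroup.lift_mk]
        cases b <;> cases s <;> simp [ew, mul_assoc]
      rw [hw, Real.dist_eq]
      apply hδ
      refine lt_of_lt_of_le ?_ (hδ' d b s)
      simp only
      cases b
      · rw [hw] at h2
        simp only at h2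
        rw [theta_ew hθ2C hθ2D] at h2
        simp only [cond_false] at h2
        rwa [inv_mul_lt_iff₀ (hδ'pos d false), mul_one] at h2
      · rw [hw] at h1
        simp only at h1
        rw [theta_ew hθ1C hθ1D] at h1
        simp only [cond_true] at h1
        rwa [inv_mul_lt_iff₀ (hδ'pos d true), mul_one] at h1
  · obtain ⟨t, ht, htL⟩ := exists_threshold (κ w0).toWord
    have hmap : FreeGroup.map (Sum.map (trunc t) id) (κ w0) = κ w0 := by
      conv_lhs => rw [← FreeGroup.mk_toWord (x := κ w0), FreeGroup.map.mk]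
      conv_rhs => rw [← FreeGroup.mk_toWord (x := κ w0)]
      congr 1
      conv_rhs => rw [← List.map_id (κ w0).toWord]
      apply List.map_congr_left
      intro p hp
      exact htL p hp
    have hopen := exists_locconst h hκ (trunc t) (isLocallyConstant_trunc ht) (κ w0)
    let E : Set D := {d | ∃ b, ((Sum.inr d, b) : (convSeq ⊕ D) × Bool) ∈ (κ w0).toWord}
    have hE : E.Finite := by
      have : E ⊆ (Sum.inr : D → convSeq ⊕ D) ⁻¹'
          ((fun p : (convSeq ⊕ D) × Bool => p.1) '' {p | p ∈ (κ w0).toWord}) := by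
        rintro d ⟨b, hd⟩
        exact ⟨(Sum.inr d, b), hd, rfl⟩
      exact ((((κ w0).toWord.finite_toSet).image _).preimage Sum.inr_injective.injOn).subset this
    have hU : IsOpen (Subtype.val ⁻¹' {w : F | FreeGroup.map (Sum.map (trunc t) id) (κ w) = κ w0} :
        Set (wordsLE i 4)) := hopen.preimage continuous_subtype_val
    have hsub : (Subtype.val ⁻¹' {w : F | FreeGroup.map (Sum.map (trunc t) id) (κ w) = κ w0} :
        Set (wordsLE i 4)) ⊆ Subtype.val ⁻¹' KE i E := by
      intro w hw
      have hw' : FreeGroup.map (Sum.map (trunc t) id) (κ w) = κ w0 := hw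
      have hnorm : (κ w).norm ≤ 4 := norm_kappa_le hκ w.2
      have h5 : reduce ((κ w).toWord.map fun p => (Sum.map (trunc t) id p.1, p.2)) =
          (κ w0).toWord := by
        rw [← FreeGroup.toWord_mk, ← FreeGroup.map.mk, FreeGroup.mk_toWord, hw']
      apply mem_KE_of_letters h hκ hnorm
      rcases star (trunc t) (κ w).toWord FreeGroup.isReduced_toWord hnorm with hs | ⟨d, b, u, v, s, hs⟩
      · intro d b hdb
        have := hs d b hdb
        rw [h5] at this
        exact ⟨b, this⟩
      · intro d' b' hdb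
        have hd : d' = d := by
          rw [hs] at hdb
          simp at hdb
          rcases hdb with h | h <;> exact h.1
        subst hd
        refine ⟨b, ?_⟩
        rw [← h5, hs]
        by_cases huv : trunc t u = trunc t v
        · exfalso
          apply hw0
          rw [← FreeGroup.toWord_eq_nil_iff, ← h5, hs]
          cases b <;> cases s <;> simp [reduce, huv]
        · cases b <;> cases s <;> simp [reduce, huv]
    exact (hf _ (compK E hE)).continuousAt (mem_of_superset (hU.mem_nhds hmap) hsub)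


theorem t35_wordsLE (h : IsFreeTopologicalGroup i) : T35Space (wordsLE i 4) := by
  have := h.isTopologicalGroup
  have := h.t2
  let := IsTopologicalGroup.rightUniformSpace F
  have : CompletelyRegularSpace F := UniformSpace.toCompletelyRegularSpace
  constructor

theorem isKRSpace_wordsLE [DiscreteTopology D] (h : IsFreeTopologicalGroup i) :
    IsKRSpace (wordsLE i 4) :=
  ⟨t35_wordsLE h, continuous_of_kR h⟩

theorem exists_isFreeTopologicalGroup (D : Type u) [TopologicalSpace D] [DiscreteTopology D] :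
    ∃ (F : Type u) (_ : Group F) (_ : TopologicalSpace F) (i : convSeq ⊕ D → F),
      IsFreeTopologicalGroup i := by
  let T : GroupTopology (FreeGroup (convSeq ⊕ D)) := GroupTopology.coinduced FreeGroup.of
  let : TopologicalSpace (FreeGroup (convSeq ⊕ D)) := T.toTopologicalSpace
  have hT : IsTopologicalGroup (FreeGroup (convSeq ⊕ D)) := T.toIsTopologicalGroup
  have hof : Continuous (FreeGroup.of : convSeq ⊕ D → FreeGroup (convSeq ⊕ D)) :=
    GroupTopology.coinduced_continuous _
  have hext : ∀ {G : Type u} [Group G] [TopologicalSpace G] [IsTopologicalGroup G]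
      (f : convSeq ⊕ D → G), Continuous f → Continuous (FreeGroup.lift f) := by
    intro G _ tG _ f hf
    let B : GroupTopology (FreeGroup (convSeq ⊕ D)) :=
      { toTopologicalSpace := tG.induced (FreeGroup.lift f)
        toIsTopologicalGroup := topologicalGroup_induced (FreeGroup.lift f) }
    have hB : T ≤ B := by
      apply sInf_le
      show TopologicalSpace.coinduced FreeGroup.of _ ≤ tG.induced (FreeGroup.lift f)
      rw [← continuous_iff_coinduced_le]
      rw [continuous_induced_rng]
      convert hf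
      ext x
      simp
    have hB' : T.toTopologicalSpace ≤ tG.induced (FreeGroup.lift f) := hB
    rw [continuous_iff_le_induced]
    exact hB'
  have hopen : ∀ {t : ℝ} (_ : 0 < t) (γ : FreeGroup (convSeq ⊕ D)),
      IsOpen {w : FreeGroup (convSeq ⊕ D) | FreeGroup.map (Sum.map (trunc t) id) w = γ} := by
    intro t ht γ
    have h1 : ∃ G : Type u, ∃ (_ : Group G) (tG : TopologicalSpace G) (_ : IsTopologicalGroup G)
        (_ : DiscreteTopology G) (e : FreeGroup (convSeq ⊕ D) ≃* G), True := by
      let t0 : TopologicalSpace (FreeGroup (convSeq ⊕ D)) := ⊥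
      have h0 : DiscreteTopology (FreeGroup (convSeq ⊕ D)) := ⟨rfl⟩
      exact ⟨FreeGroup (convSeq ⊕ D), inferInstance, t0,
        { continuous_mul := continuous_of_discreteTopology,
          continuous_inv := continuous_of_discreteTopology }, h0, MulEquiv.refl _, trivial⟩
    obtain ⟨G, _, tG, _, _, e, -⟩ := h1
    have hf : Continuous (fun x : convSeq ⊕ D => e (FreeGroup.of (Sum.map (trunc t) id x))) := by
      apply continuous_sum_dom.2
      constructor
      · have : IsLocallyConstant (fun c => e (FreeGroup.of (Sum.inl (trunc t c) : convSeq ⊕ D))) :=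
          (isLocallyConstant_trunc ht).comp (fun c => e (FreeGroup.of (Sum.inl c : convSeq ⊕ D)))
        exact this.continuous
      · exact continuous_of_discreteTopology
    have h2 := hext _ hf
    have h3 : {w : FreeGroup (convSeq ⊕ D) | FreeGroup.map (Sum.map (trunc t) id) w = γ} =
        FreeGroup.lift (fun x : convSeq ⊕ D => e (FreeGroup.of (Sum.map (trunc t) id x))) ⁻¹'
          {e γ} := by
      have h4 : FreeGroup.lift (fun x : convSeq ⊕ D => e (FreeGroup.of (Sum.map (trunc t) id x))) =
          e.toMonoidHom.comp (FreeGroup.map (Sum.map (trunc t) id)) := by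
        ext x; simp
      ext w
      rw [h4]
      simp
    rw [h3]
    exact (isOpen_discrete _).preimage h2
  refine ⟨FreeGroup (convSeq ⊕ D), inferInstance, T.toTopologicalSpace, FreeGroup.of, hT, ?_, ?_, ?_, ?_⟩
  · refine ⟨fun x y hxy => ?_⟩
    obtain ⟨t, ht, htL⟩ := exists_threshold (x⁻¹ * y).toWord
    have hmap : FreeGroup.map (Sum.map (trunc t) id) (x⁻¹ * y) = x⁻¹ * y := by
      conv_lhs => rw [← FreeGroup.mk_toWord (x := x⁻¹ * y), FreeGroup.map.mk]
      conv_rhs => rw [← FreeGroup.mk_toWord (x := x⁻¹ * y)]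
      congr 1
      conv_rhs => rw [← List.map_id (x⁻¹ * y).toWord]
      apply List.map_congr_left
      intro p hp
      exact htL p hp
    refine ⟨_, _, hopen ht (FreeGroup.map (Sum.map (trunc t) id) x),
      hopen ht (FreeGroup.map (Sum.map (trunc t) id) y), rfl, rfl, ?_⟩
    rw [Set.disjoint_left]
    intro w hw1 hw2
    have h1 : FreeGroup.map (Sum.map (trunc t) id) x = FreeGroup.map (Sum.map (trunc t) id) y :=
      (Eq.symm hw1).trans hw2
    apply hxy
    rw [_root_.map_mul, _root_.map_inv, h1, inv_mul_cancel] at hmap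
    exact (inv_mul_eq_one.1 hmap.symm)
  · refine ⟨?_, FreeGroup.of_injective⟩
    rw [isInducing_iff_nhds]
    intro x
    apply le_antisymm
    · exact hof.continuousAt.le_comap
    · intro U hU
      obtain ⟨V, hVU, hV, hxV⟩ := mem_nhds_iff.1 hU
      have key : ∀ {t : ℝ} (_ : 0 < t) (_ : Sum.map (trunc t) id x = x)
          (_ : ∀ y, Sum.map (trunc t) id y = x → y ∈ V), U ∈ comap FreeGroup.of (𝓝 (FreeGroup.of x)) := by
        intro t ht hx hy
        rw [mem_comap]
        refine ⟨_, (hopen ht (FreeGroup.of x)).mem_nhds ?_, ?_⟩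
        · show FreeGroup.map (Sum.map (trunc t) id) (FreeGroup.of x) = FreeGroup.of x
          rw [FreeGroup.map.of, hx]
        · intro y hy'
          have : FreeGroup.map (Sum.map (trunc t) id) (FreeGroup.of y) = FreeGroup.of x := hy'
          rw [FreeGroup.map.of] at this
          exact hVU (hy y (FreeGroup.of_injective this))
      rcases x with c | d
      · by_cases hc : (c : ℝ) = 0
        · have hV' : IsOpen (Sum.inl ⁻¹' V : Set convSeq) := hV.preimage continuous_inl
          obtain ⟨t, ht, hball⟩ := Metric.isOpen_iff.1 hV' c hxV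
          apply key ht
          · simp only [Sum.map_inl, Sum.inl.injEq]
            have : (c : ℝ) < t := by rw [hc]; exact ht
            simp only [trunc, this, if_true]
            exact Subtype.ext hc.symm
          · rintro (y | y) hy
            · simp only [Sum.map_inl, Sum.inl.injEq] at hy
              apply hball
              rw [Metric.mem_ball, Subtype.dist_eq, Real.dist_eq, hc, sub_zero]
              unfold trunc at hy
              split_ifs at hy with h1
              · rw [abs_lt]
                refine ⟨?_, h1⟩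
                rcases y.2 with h | ⟨m, hm, h⟩
                · rw [h]; linarith
                · rw [h]
                  have : 0 ≤ 1 / (m : ℝ) := by positivity
                  linarith
              · rw [hy, hc, abs_zero]; exact ht
            · simp at hy
        · have hcpos : 0 < (c : ℝ) := by
            rcases c.2 with h | ⟨m, hm, h⟩
            · exact absurd h hc
            · rw [h]
              have : (1 : ℝ) ≤ m := by exact_mod_cast hm
              positivity
          apply key hcpos
          · simp [trunc]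
          · rintro (y | y) hy
            · simp only [Sum.map_inl, Sum.inl.injEq] at hy
              unfold trunc at hy
              split_ifs at hy with h1
              · exact absurd (congrArg Subtype.val hy).symm hc
              · rw [hy]; exact hxV
            · simp at hy
      · apply key one_pos
        · simp
        · rintro (y | y) hy
          · simp at hy
          · simp only [Sum.map_inr, id, Sum.inr.injEq] at hy
            rw [hy]; exact hxV
  · exact FreeGroup.closure_range_of _
  · intro G _ _ _ f hf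
    exact ⟨FreeGroup.lift f, hext f hf, fun x => by simp⟩

end

end Pool.Agent.Lib.MP_c880a5_gt
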